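import Pool.Graph.R_seed8.W904.AK.Final

/-!
# Slopes and relations: definitions and statements of the packages

Aim: for the slopes `0, ∞, r_1, …, r_k` the exponent is bounded away from the trivial `2` if and only if
there is a relation `a(r) = b(r) ≠ 0` of bounded complexity between values of integral forms of degrees
`d` and `d + 1`.
-/

set_option autoImplicit false

open Finset
open scoped Classical

namespace Pool.Agent.Helper20.RE
open Pool.Agent.W904.AK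

/-- The entropy of the sum of two independent variables. -/
noncomputable def hh {Ω Ω' : Type} [Fintype Ω] [Fintype Ω'] (p : Ω → ℝ) (f : Ω → ℚ) (q : Ω' → ℝ)
    (g : Ω' → ℚ) : ℝ :=
  H (prodLaw p q) (fun z => f z.1 + g z.2)

/-- The value of the integral form of degree `d` with the coefficients `a`. -/
def form {k : ℕ} (r : Fin k → ℚ) (d : ℕ) (a : (Fin k → ℕ) → ℤ) : ℚ :=
  ∑ e ∈ Finset.Nat.antidiagonalTuple k d, (a e : ℚ) * ∏ i, r i ^ e i

/-- The total number of binary digits of the coefficients. -/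
def len {k : ℕ} (d : ℕ) (a : (Fin k → ℕ) → ℤ) : ℕ :=
  ∑ e ∈ Finset.Nat.antidiagonalTuple k d, Nat.size (a e).natAbs

/-- The projection in direction `r`. -/
def pr (r : ℚ) (A : Finset (ℤ × ℤ)) : Finset ℚ := A.image fun z => (z.1 : ℚ) + r * (z.2 : ℚ)

/-- The projection in direction `∞`. -/
def prInf (A : Finset (ℤ × ℤ)) : Finset ℚ := A.image fun z => (z.2 : ℚ)

/-- The largest projection in the directions `0`, `∞`, `r i`. -/
def top {k : ℕ} (r : Fin k → ℚ) (A : Finset (ℤ × ℤ)) : ℕ :=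
  max (max (pr 0 A).card (prInf A).card) (univ.sup fun i => (pr (r i) A).card)

/-- The inequality with the exponent `κ`. -/
def Expo {k : ℕ} (r : Fin k → ℚ) (κ : ℝ) : Prop :=
  ∀ A : Finset (ℤ × ℤ), ((pr (-1) A).card : ℝ) ≤ (top r A : ℝ) ^ κ

/-! ### Package K: independent sums -/

def S_comm : Prop := ∀ (Ω Ω' : Type) [Fintype Ω] [Fintype Ω'] (p : Ω → ℝ) (f : Ω → ℚ) (q : Ω' → ℝ)
  (g : Ω' → ℚ), IsLaw p → IsLaw q → hh p f q g = hh q g p f

def S_smul : Prop := ∀ (Ω Ω' : Type) [Fintype Ω] [Fintype Ω'] (p : Ω → ℝ) (f : Ω → ℚ) (q : Ω' → ℝ)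
  (g : Ω' → ℚ) (c : ℚ), c ≠ 0 → hh p (fun x => c * f x) q (fun y => c * g y) = hh p f q g

def S_mon : Prop := ∀ (Ω Ω' : Type) [Fintype Ω] [Fintype Ω'] (p : Ω → ℝ) (f : Ω → ℚ) (q : Ω' → ℝ)
  (g : Ω' → ℚ), IsLaw p → IsLaw q → H p f ≤ hh p f q g ∧ H q g ≤ hh p f q g

/-- Triangle inequality, `U`, `V` dependent, `Z` independent of them. -/
def S_tri : Prop := ∀ (Ω Ω' : Type) [Fintype Ω] [Fintype Ω'] (p : Ω → ℝ) (U V : Ω → ℚ)
  (q : Ω' → ℝ) (Z : Ω' → ℚ), IsLaw p → IsLaw q →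
  H p (fun x => U x - V x) + H q Z ≤ hh p U q (fun y => -Z y) + hh p V q (fun y => -Z y)

/-- Triangle inequality for three independent variables. -/
def S_tri3 : Prop := ∀ (Ω Ω' Ω'' : Type) [Fintype Ω] [Fintype Ω'] [Fintype Ω''] (p : Ω → ℝ)
  (f : Ω → ℚ) (q : Ω' → ℝ) (g : Ω' → ℚ) (s : Ω'' → ℝ) (Z : Ω'' → ℚ), IsLaw p → IsLaw q → IsLaw s →
  hh p f q (fun y => -g y) + H s Z ≤ hh p f s (fun y => -Z y) + hh q g s (fun y => -Z y)

/-- `f`, `g` dependent, `z` independent of them. -/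
def S_sub : Prop := ∀ (Ω Ω' : Type) [Fintype Ω] [Fintype Ω'] (p : Ω → ℝ) (f g : Ω → ℚ)
  (q : Ω' → ℝ) (z : Ω' → ℚ), IsLaw p → IsLaw q →
  hh p (fun x => f x + g x) q (fun y => -z y) + 2 * H q z ≤
    hh p f q (fun y => -z y) + hh p (fun x => -g x) q (fun y => -z y) + hh q z q (fun y => -z y)

def S_sum2 : Prop := ∀ (Ω Ω' : Type) [Fintype Ω] [Fintype Ω'] (p : Ω → ℝ) (f : Ω → ℚ) (q : Ω' → ℝ)
  (g : Ω' → ℚ), IsLaw p → IsLaw q → hh p f p f + H q g ≤ 2 * hh p f q g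

/-! ### Package N: from the sums `x + r_i y` to `x - y` -/

def S_S2 : Prop := ∀ (k : ℕ) (r : Fin k → ℚ), (∀ i, r i ≠ 0) → ∀ (d : ℕ) (a b : (Fin k → ℕ) → ℤ),
  form r d a = form r (d + 1) b → form r d a ≠ 0 →
  ∀ (Ω : Type) [Fintype Ω] (p : Ω → ℝ) (x y : Ω → ℚ), IsLaw p →
    H p (fun ω => x ω - y ω) ≤ H p x + ((d + 8) * (len d a + len (d + 1) b) : ℕ) *
      ∑ i, (2 * hh p x p (fun ω => r i * y ω) - H p x - H p y)

/-! ### Package G: paths of length three (entropic Balog-Szemerédi-Gowers) and averaging -/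

def S_S3 : Prop := ∀ (k : ℕ) (r : Fin k → ℚ), (∀ i, r i ≠ 0) → ∀ C : ℝ, 0 ≤ C →
  (∀ (Ω : Type) [Fintype Ω] (p : Ω → ℝ) (x y : Ω → ℚ), IsLaw p →
    H p (fun ω => x ω - y ω) ≤ H p x + C *
      ∑ i, (2 * hh p x p (fun ω => r i * y ω) - H p x - H p y)) →
  ∀ (Ω : Type) [Fintype Ω] (p : Ω → ℝ) (x y : Ω → ℚ) (h : ℝ), IsLaw p →
    Det p (fun ω => x ω - y ω) (fun ω => (x ω, y ω)) →
    H p x ≤ h → H p y ≤ h → (∀ i, H p (fun ω => x ω + r i * y ω) ≤ h) →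
    H p (fun ω => x ω - y ω) ≤ (2 - 1 / (2 + 9 * k * C)) * h

/-! ### Package P: from entropies to cardinalities -/

def S_P : Prop := ∀ (k : ℕ) (r : Fin k → ℚ) (κ : ℝ), 0 ≤ κ →
  (∀ (Ω : Type) [Fintype Ω] (p : Ω → ℝ) (x y : Ω → ℚ) (h : ℝ), IsLaw p →
    Det p (fun ω => x ω - y ω) (fun ω => (x ω, y ω)) →
    H p x ≤ h → H p y ≤ h → (∀ i, H p (fun ω => x ω + r i * y ω) ≤ h) →
    H p (fun ω => x ω - y ω) ≤ κ * h) → Expo r κ

/-! ### Package L: no relation of small complexity, large exponent -/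

def S_L : Prop := ∀ k : ℕ, 0 < k → ∀ δ : ℝ, 0 < δ → ∃ M : ℕ, ∀ r : Fin k → ℚ, (∀ i, r i ≠ 0) →
  Expo r (2 - δ) → ∃ d ≤ M, ∃ a b : (Fin k → ℕ) → ℤ, (∀ e, |a e| ≤ M) ∧ (∀ e, |b e| ≤ M) ∧
    form r d a = form r (d + 1) b ∧ form r d a ≠ 0

end Pool.Agent.Helper20.RE
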