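import Pool.Agent.Helper20.RE.Stm

/-!
# Three slopes: the lower bound
-/

set_option autoImplicit false
set_option linter.unusedSectionVars false

open Finset
open scoped Classical

namespace Pool.Agent.Helper20.RE

lemma three_lower (r : ℚ) (hn : 2 ≤ max r.num.natAbs r.den) (κ : ℝ)
    (h : Expo (fun _ : Fin 1 => r) κ) :
    2 - 2 * Real.log 2 / Real.log (2 * (max r.num.natAbs r.den : ℕ)) ≤ κ := by
  set n : ℕ := max r.num.natAbs r.den with hnd
  set u : ℤ := r.num with hu
  set v : ℤ := (r.den : ℤ) with hv
  have hv0 : v ≠ 0 := by rw [hv]; exact_mod_cast r.den_nz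
  have hcop : IsCoprime u v := by
    rw [hu, hv, Int.isCoprime_iff_gcd_eq_one]
    simpa [Int.gcd] using r.reduced
  have hr : (r : ℚ) * v = u := by
    rw [hu, hv]
    exact_mod_cast Rat.mul_den_eq_num r
  set A : Finset (ℤ × ℤ) := ((range n) ×ˢ (range n)).image
    fun z : ℕ × ℕ => (u * (z.1 : ℤ), v * (z.2 : ℤ)) with hA
  have h1 := h A
  -- the number of differences
  have hinj : Set.InjOn (fun z : ℕ × ℕ => ((u * (z.1 : ℤ) : ℤ) : ℚ) + (-1) * ((v * (z.2 : ℤ) : ℤ) : ℚ))
      ((range n) ×ˢ (range n) : Finset (ℕ × ℕ)) := by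
    intro z hz w hw hzw
    rw [mem_coe, mem_product, mem_range, mem_range] at hz hw
    have e1 : u * (z.1 : ℤ) - v * (z.2 : ℤ) = u * (w.1 : ℤ) - v * (w.2 : ℤ) := by
      have : ((u * (z.1 : ℤ) - v * (z.2 : ℤ) : ℤ) : ℚ) = ((u * (w.1 : ℤ) - v * (w.2 : ℤ) : ℤ) : ℚ) := by
        push_cast
        push_cast at hzw
        linarith
      exact_mod_cast this
    have e2 : u * ((z.1 : ℤ) - w.1) = v * ((z.2 : ℤ) - w.2) := by linarith
    rcases max_choice r.num.natAbs r.den with hm | hm
    · -- n = |u|
      have hnu : n = u.natAbs := hm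
      have h3 : u ∣ ((z.2 : ℤ) - w.2) :=
        hcop.dvd_of_dvd_mul_left (Dvd.intro _ e2)
      have h4 : (z.2 : ℤ) - w.2 = 0 := by
        have hau : |u| = (n : ℤ) := by rw [hnu]; exact (Int.natCast_natAbs u).symm
        have h3' : (n : ℤ) ∣ ((z.2 : ℤ) - w.2) := by rw [← hau]; exact (abs_dvd _ _).2 h3
        apply Int.eq_zero_of_abs_lt_dvd h3'
        rw [abs_lt]
        omega
      have hu1 : u ≠ 0 := by
        intro h0
        rw [h0] at hnu
        simp at hnu
        omega
      rw [h4, mul_zero] at e2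
      have h5 : (z.1 : ℤ) - w.1 = 0 := by
        rcases mul_eq_zero.1 e2 with h6 | h6
        · exact absurd h6 hu1
        · exact h6
      exact Prod.ext (by omega) (by omega)
    · have hnv : n = r.den := hm
      have h3 : v ∣ ((z.1 : ℤ) - w.1) := by
        refine hcop.symm.dvd_of_dvd_mul_left (Dvd.intro _ e2.symm)
      have h4 : (z.1 : ℤ) - w.1 = 0 := by
        have hav : v = (n : ℤ) := by rw [hnv]
        rw [hav] at h3
        apply Int.eq_zero_of_abs_lt_dvd h3
        rw [abs_lt]
        omega
      rw [h4, mul_zero] at e2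
      have h5 : (z.2 : ℤ) - w.2 = 0 := by
        rcases mul_eq_zero.1 e2.symm with h6 | h6
        · exact absurd h6 hv0
        · exact h6
      exact Prod.ext (by omega) (by omega)
  have c1 : (pr (-1) A).card = n * n := by
    unfold pr
    rw [hA, image_image]
    rw [card_image_of_injOn (by exact hinj), card_product, card_range]
  have c2 : (pr 0 A).card ≤ n := by
    have : pr 0 A ⊆ (range n).image fun i : ℕ => ((u * (i : ℤ) : ℤ) : ℚ) := by
      intro t ht
      unfold pr at ht
      rw [mem_image] at ht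
      obtain ⟨z, hz, rfl⟩ := ht
      rw [hA, mem_image] at hz
      obtain ⟨w, hw, rfl⟩ := hz
      rw [mem_product] at hw
      rw [mem_image]
      exact ⟨w.1, hw.1, by simp⟩
    refine (card_le_card this).trans (card_image_le.trans ?_)
    rw [card_range]
  have c3 : (prInf A).card ≤ n := by
    have : prInf A ⊆ (range n).image fun i : ℕ => ((v * (i : ℤ) : ℤ) : ℚ) := by
      intro t ht
      unfold prInf at ht
      rw [mem_image] at ht
      obtain ⟨z, hz, rfl⟩ := ht
      rw [hA, mem_image] at hz
      obtain ⟨w, hw, rfl⟩ := hz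
      rw [mem_product] at hw
      rw [mem_image]
      exact ⟨w.2, hw.2, rfl⟩
    refine (card_le_card this).trans (card_image_le.trans ?_)
    rw [card_range]
  have c4 : (pr r A).card ≤ 2 * n := by
    have : pr r A ⊆ (range (2 * n)).image fun i : ℕ => ((u * (i : ℤ) : ℤ) : ℚ) := by
      intro t ht
      unfold pr at ht
      rw [mem_image] at ht
      obtain ⟨z, hz, rfl⟩ := ht
      rw [hA, mem_image] at hz
      obtain ⟨w, hw, rfl⟩ := hz
      rw [mem_product, mem_range, mem_range] at hw
      rw [mem_image]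
      refine ⟨w.1 + w.2, mem_range.2 (by omega), ?_⟩
      push_cast
      rw [← hr]
      ring
    refine (card_le_card this).trans (card_image_le.trans ?_)
    rw [card_range]
  have ctop : top (fun _ : Fin 1 => r) A ≤ 2 * n := by
    unfold top
    refine max_le (max_le (c2.trans (by omega)) (c3.trans (by omega))) ?_
    exact Finset.sup_le fun i _ => c4
  have ctop1 : 1 ≤ top (fun _ : Fin 1 => r) A := by
    unfold top
    refine le_max_of_le_left (le_max_of_le_left ?_)
    refine card_pos.2 ?_
    unfold pr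
    refine Finset.Nonempty.image ?_ _
    rw [hA]
    refine Finset.Nonempty.image ?_ _
    exact ⟨(0, 0), by rw [mem_product, mem_range]; constructor <;> omega⟩
  rw [c1] at h1
  have hn1 : (2 : ℝ) ≤ n := by exact_mod_cast hn
  have hlogn : 0 < Real.log n := Real.log_pos (by linarith)
  have hlog2n : 0 < Real.log (2 * n) := Real.log_pos (by linarith)
  have ht1 : (1 : ℝ) ≤ (top (fun _ : Fin 1 => r) A : ℝ) := by exact_mod_cast ctop1
  have ht2 : (top (fun _ : Fin 1 => r) A : ℝ) ≤ 2 * n := by exact_mod_cast ctop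
  set t : ℝ := (top (fun _ : Fin 1 => r) A : ℝ) with ht
  have h2 : 2 * Real.log n ≤ κ * Real.log t := by
    have := Real.log_le_log (by push_cast; positivity) h1
    rw [Real.log_rpow (by linarith)] at this
    push_cast at this
    rw [Real.log_mul (by positivity) (by positivity)] at this
    linarith
  have hlt : 0 ≤ Real.log t := Real.log_nonneg ht1
  have hκ : 0 < κ := by
    by_contra hk
    push Not at hk
    nlinarith
  have h3 : Real.log t ≤ Real.log (2 * n) := Real.log_le_log (by linarith) ht2
  have h4 : 2 * Real.log n ≤ κ * Real.log (2 * n) :=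
    h2.trans (mul_le_mul_of_nonneg_left h3 hκ.le)
  have h5 : Real.log (2 * (n : ℝ)) = Real.log 2 + Real.log n :=
    Real.log_mul (by norm_num) (by positivity)
  rw [sub_le_iff_le_add, ← sub_le_iff_le_add']
  rw [le_div_iff₀ hlog2n]
  rw [h5] at h4 ⊢
  linarith

end Pool.Agent.Helper20.RE
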