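import Pool.Agent.Helper20.RE.S2
import Pool.Agent.Helper20.RE.Three
import Pool.Agent.Helper47.RE.K
import Pool.Agent.Helper80.RE.G
import Pool.Agent.Helper59.RE.P

/-!
# Relations give an exponent below two
-/

set_option autoImplicit false
set_option linter.unusedSectionVars false

open Finset
open scoped Classical

namespace Pool.Agent.Helper20.RE
open Pool.Agent.W904.AK

theorem kk : KK :=
  ⟨Pool.Agent.Helper47.RE.comm, Pool.Agent.Helper47.RE.smul, Pool.Agent.Helper47.RE.mon,
    Pool.Agent.Helper47.RE.tri, Pool.Agent.Helper47.RE.tri3, Pool.Agent.Helper47.RE.sub,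
    Pool.Agent.Helper47.RE.sum2⟩

theorem upper {k : ℕ} (r : Fin k → ℚ) (hr : ∀ i, r i ≠ 0) (d : ℕ) (a b : (Fin k → ℕ) → ℤ)
    (h1 : form r d a = form r (d + 1) b) (h2 : form r d a ≠ 0) :
    Expo r (2 - 1 / (2 + 9 * k * (((d + 8) * (len d a + len (d + 1) b) : ℕ) : ℝ))) := by
  set C : ℝ := (((d + 8) * (len d a + len (d + 1) b) : ℕ) : ℝ) with hC
  have hC0 : 0 ≤ C := Nat.cast_nonneg _
  refine Pool.Agent.Helper59.RE.p_P k r _ ?_ ?_
  · have h3 : (1 : ℝ) / (2 + 9 * k * C) ≤ 1 := by
      rw [div_le_one (by positivity)]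
      have : (0 : ℝ) ≤ 9 * k * C := by positivity
      linarith
    linarith
  · intro Ω _ p x y h hp hdet hx hy hs
    refine Pool.Agent.Helper80.RE.s_S3 k r hr C hC0 ?_ Ω p x y h hp hdet hx hy hs
    intro Ω' _ p' x' y' hp'
    exact s2 kk k r hr d a b h1 h2 Ω' p' x' y' hp'

lemma Expo.mono {k : ℕ} {r : Fin k → ℚ} {κ κ' : ℝ} (h : Expo r κ) (hκ : κ ≤ κ') : Expo r κ' := by
  intro A
  rcases A.eq_empty_or_nonempty with hA | hA
  · subst hA
    have : (pr (-1) ∅).card = 0 := by simp [pr]
    rw [this]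
    push_cast
    positivity
  · have h1 : (1 : ℝ) ≤ (top r A : ℝ) := by
      have : 1 ≤ top r A := by
        unfold top
        refine le_max_of_le_left (le_max_of_le_left ?_)
        exact card_pos.2 (hA.image _)
      exact_mod_cast this
    exact (h A).trans (Real.rpow_le_rpow_of_exponent_le h1 hκ)

theorem three_upper (r : ℚ) (hr : r ≠ 0) :
    Expo (fun _ : Fin 1 => r)
      (2 - 1 / (2 + 144 * (Nat.size (max r.num.natAbs r.den) : ℝ))) := by
  have h1 := upper (fun _ : Fin 1 => r) (fun _ => hr) 0 (fun _ => r.num) (fun _ => (r.den : ℤ))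
    (by
      unfold form
      rw [Finset.Nat.antidiagonalTuple_one, Finset.Nat.antidiagonalTuple_one]
      simp)
    (by
      unfold form
      rw [Finset.Nat.antidiagonalTuple_one]
      simp
      exact hr)
  refine h1.mono ?_
  have e1 : len (k := 1) 0 (fun _ => r.num) = Nat.size r.num.natAbs := by
    unfold len
    rw [Finset.Nat.antidiagonalTuple_one]
    simp
  have e2 : len (k := 1) (0 + 1) (fun _ => (r.den : ℤ)) = Nat.size r.den := by
    unfold len
    rw [Finset.Nat.antidiagonalTuple_one]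
    simp
  rw [e1, e2]
  have h3 : Nat.size r.num.natAbs ≤ Nat.size (max r.num.natAbs r.den) :=
    Nat.size_le_size (le_max_left _ _)
  have h4 : Nat.size r.den ≤ Nat.size (max r.num.natAbs r.den) :=
    Nat.size_le_size (le_max_right _ _)
  have h5 : (Nat.size r.num.natAbs : ℝ) ≤ Nat.size (max r.num.natAbs r.den) := by exact_mod_cast h3
  have h6 : (Nat.size r.den : ℝ) ≤ Nat.size (max r.num.natAbs r.den) := by exact_mod_cast h4
  push_cast
  apply sub_le_sub_left
  apply one_div_le_one_div_of_le (by positivity)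
  linarith

end Pool.Agent.Helper20.RE
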