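import Pool.Agent.Helper20.RE.Stm

/-!
# From the sums `x + r_i y` to `x - y`
-/

set_option autoImplicit false
set_option linter.unusedSectionVars false

open Finset
open scoped Classical

namespace Pool.Agent.Helper20.RE
open Pool.Agent.W904.AK

/-- The statements on independent sums. -/
structure KK : Prop where
  comm : S_comm
  smul : S_smul
  mon : S_mon
  tri : S_tri
  tri3 : S_tri3
  sub : S_sub
  sum2 : S_sum2

section
variable {Ω : Type} [Fintype Ω] {p : Ω → ℝ}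

lemma H_smul (p : Ω → ℝ) (f : Ω → ℚ) {c : ℚ} (hc : c ≠ 0) : H p (fun x => c * f x) = H p f :=
  H_comp_injective p f (mul_right_injective₀ hc)

lemma H_neg (p : Ω → ℝ) (f : Ω → ℚ) : H p (fun x => -f x) = H p f :=
  H_comp_injective p f neg_injective

lemma hh_congr {Ω' : Type} [Fintype Ω'] {p : Ω → ℝ} {f f' : Ω → ℚ} {q : Ω' → ℝ} {g g' : Ω' → ℚ}
    (h1 : ∀ x, f x = f' x) (h2 : ∀ y, g y = g' y) : hh p f q g = hh p f' q g' := by
  rw [show f = f' from funext h1, show g = g' from funext h2]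

lemma hh_neg (K : KK) {Ω' : Type} [Fintype Ω'] (p : Ω → ℝ) (f : Ω → ℚ) (q : Ω' → ℝ) (g : Ω' → ℚ) :
    hh p (fun x => -f x) q (fun y => -g y) = hh p f q g := by
  rw [← K.smul Ω Ω' p f q g (-1) (by norm_num)]
  exact hh_congr (fun x => by ring) (fun y => by ring)

lemma hh_zero (hp : IsLaw p) (z : Ω → ℚ) : hh p (fun _ => 0) p z ≤ H p z := by
  unfold hh
  have hl := prod_law hp hp
  have e1 : H (prodLaw p p) (fun w : Ω × Ω => (0 : ℚ) + z w.2) ≤
      H (prodLaw p p) (fun w : Ω × Ω => ((), z w.2)) :=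
    H_mono hl fun w w' _ _ h => by
      have h2 := congrArg Prod.snd h
      dsimp only at h2 ⊢
      rw [h2]
  have e2 := H_prod hp hp (fun _ : Ω => ()) z
  rw [e2, H_const hp ()] at e1
  linarith

/-- The bound for the sums with an independent copy of `z`. -/
def Bd (p : Ω → ℝ) (z : Ω → ℚ) (a Δ : ℝ) (f : Ω → ℚ) (N : ℝ) : Prop :=
  hh p f p (fun ω => -z ω) ≤ a + N * Δ ∧ hh p (fun ω => -f ω) p (fun ω => -z ω) ≤ a + N * Δ

lemma Bd.mono {z : Ω → ℚ} {a Δ : ℝ} {f : Ω → ℚ} {N N' : ℝ} (h : Bd p z a Δ f N) (hΔ : 0 ≤ Δ)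
    (hN : N ≤ N') : Bd p z a Δ f N' := by
  have := mul_le_mul_of_nonneg_right hN hΔ
  exact ⟨h.1.trans (by linarith), h.2.trans (by linarith)⟩

lemma Bd.neg {z : Ω → ℚ} {a Δ : ℝ} {f : Ω → ℚ} {N : ℝ} (h : Bd p z a Δ f N) :
    Bd p z a Δ (fun ω => -f ω) N := by
  refine ⟨h.2, ?_⟩
  have e : hh p (fun ω => -(-f ω)) p (fun ω => -z ω) = hh p f p (fun ω => -z ω) :=
    hh_congr (fun x => by ring) (fun _ => rfl)
  rw [e]
  exact h.1

lemma Bd.congr {z : Ω → ℚ} {a Δ : ℝ} {f g : Ω → ℚ} {N : ℝ} (h : Bd p z a Δ f N)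
    (hfg : ∀ ω, g ω = f ω) : Bd p z a Δ g N := by
  rw [show g = f from funext hfg]
  exact h

/-- The properties of `z` which are used. -/
structure Zok (p : Ω → ℝ) (z : Ω → ℚ) (a Δ : ℝ) : Prop where
  law : IsLaw p
  Δ0 : 0 ≤ Δ
  ent : H p z = a
  dif : hh p z p (fun ω => -z ω) ≤ a + Δ
  sum : hh p z p z ≤ a + Δ

variable {z : Ω → ℚ} {a Δ : ℝ}

lemma Bd.zero (Z : Zok p z a Δ) : Bd p z a Δ (fun _ => 0) 0 := by
  have h1 := hh_zero Z.law (fun ω => -z ω)
  rw [H_neg, Z.ent] at h1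
  refine ⟨by linarith, ?_⟩
  have e : hh p (fun _ : Ω => -(0 : ℚ)) p (fun ω => -z ω) = hh p (fun _ => 0) p (fun ω => -z ω) :=
    hh_congr (fun x => by ring) (fun _ => rfl)
  rw [e]
  linarith

lemma Bd.add (K : KK) (Z : Zok p z a Δ) {f g : Ω → ℚ} {N N' : ℝ} (hf : Bd p z a Δ f N)
    (hg : Bd p z a Δ g N') : Bd p z a Δ (fun ω => f ω + g ω) (N + N' + 1) := by
  have h1 := K.sub Ω Ω p f g p z Z.law Z.law
  have h2 := K.sub Ω Ω p (fun ω => -f ω) (fun ω => -g ω) p z Z.law Z.law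
  have e1 : hh p (fun x => -(-g x)) p (fun y => -z y) = hh p g p (fun y => -z y) :=
    hh_congr (fun x => by ring) (fun _ => rfl)
  have e2 : hh p (fun ω => -(f ω + g ω)) p (fun ω => -z ω) =
      hh p (fun x => -f x + -g x) p (fun y => -z y) :=
    hh_congr (fun x => by ring) (fun _ => rfl)
  rw [e1] at h2
  rw [Z.ent] at h1 h2
  have h3 := Z.dif
  refine ⟨?_, ?_⟩
  · linarith [hf.1, hg.2]
  · rw [e2]
    linarith [hf.2, hg.1]

lemma Bd.double (K : KK) (Z : Zok p z a Δ) {f : Ω → ℚ} {N : ℝ} (hf : Bd p z a Δ f N) :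
    Bd p z a Δ (fun ω => 2 * f ω) (N + 3) := by
  have main : ∀ f : Ω → ℚ, hh p f p (fun ω => -z ω) ≤ a + N * Δ →
      hh p (fun ω => 2 * f ω) p (fun ω => -z ω) ≤ a + (N + 3) * Δ := by
    intro f hf
    have h1 := K.tri3 Ω Ω Ω p (fun ω => 2 * f ω) p z p (fun ω => 2 * z ω) Z.law Z.law Z.law
    have e1 : hh p (fun ω => 2 * f ω) p (fun y => -(2 * z y)) = hh p f p (fun ω => -z ω) := by
      rw [← K.smul Ω Ω p f p (fun ω => -z ω) 2 (by norm_num)]
      exact hh_congr (fun _ => rfl) (fun y => by ring)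
    have e2 : hh p z p (fun y => -(2 * z y)) = hh p (fun ω => z ω + z ω) p (fun ω => -z ω) := by
      rw [K.comm Ω Ω p z p _ Z.law Z.law, ← hh_neg K]
      exact hh_congr (fun x => by ring) (fun _ => rfl)
    have h2 := K.sub Ω Ω p z z p z Z.law Z.law
    have e3 : hh p (fun x => -z x) p (fun y => -z y) = hh p z p z := hh_neg K p z p z
    rw [e3, Z.ent] at h2
    rw [e1, e2, H_smul p z (by norm_num), Z.ent] at h1
    have h3 := Z.dif
    have h4 := Z.sum
    linarith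
  refine ⟨main f hf.1, ?_⟩
  have h1 := main (fun ω => -f ω) hf.2
  have e : hh p (fun ω => -(2 * f ω)) p (fun ω => -z ω) =
      hh p (fun ω => 2 * (-f ω)) p (fun ω => -z ω) :=
    hh_congr (fun x => by ring) (fun _ => rfl)
  rw [e]
  exact h1

lemma Bd.nat (K : KK) (Z : Zok p z a Δ) {f : Ω → ℚ} {N : ℝ} (hN : 0 ≤ N) (hf : Bd p z a Δ f N)
    (m : ℕ) : Bd p z a Δ (fun ω => (m : ℚ) * f ω) ((N + 4) * Nat.size m) := by
  induction m using Nat.binaryRec' with
  | zero =>
    have h := Bd.zero Z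
    refine (h.congr (g := fun ω => ((0 : ℕ) : ℚ) * f ω) fun ω => by simp).mono Z.Δ0 ?_
    simp
  | bit b m hb ih =>
    have hs : (Nat.size (Nat.bit b m) : ℝ) = Nat.size m + 1 := by
      have h0 : Nat.bit b m ≠ 0 := by
        intro h
        have h1 := Nat.bit_eq_zero_iff.1 h
        have h2 := hb h1.1
        rw [h1.2] at h2
        exact absurd h2 (by decide)
      rw [Nat.size_bit h0]
      push_cast
      ring
    have h2 := Bd.double K Z ih
    cases b with
    | false =>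
      refine (h2.congr (g := fun ω => ((Nat.bit false m : ℕ) : ℚ) * f ω) fun ω => ?_).mono Z.Δ0 ?_
      · rw [Nat.bit_false]
        push_cast
        ring
      · rw [hs]
        linarith
    | true =>
      have h3 := Bd.add K Z h2 hf
      refine (h3.congr (g := fun ω => ((Nat.bit true m : ℕ) : ℚ) * f ω) fun ω => ?_).mono Z.Δ0 ?_
      · rw [Nat.bit_true]
        push_cast
        ring
      · rw [hs]
        linarith

lemma Bd.int (K : KK) (Z : Zok p z a Δ) {f : Ω → ℚ} {N : ℝ} (hN : 0 ≤ N) (hf : Bd p z a Δ f N)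
    (m : ℤ) : Bd p z a Δ (fun ω => (m : ℚ) * f ω) ((N + 4) * Nat.size m.natAbs) := by
  rcases Int.natAbs_eq m with h | h
  · have h1 := Bd.nat K Z hN hf m.natAbs
    refine h1.congr fun ω => ?_
    have : (m : ℚ) = ((m.natAbs : ℕ) : ℚ) := by
      conv_lhs => rw [h]
      simp
    rw [this]
  · have h1 := (Bd.nat K Z hN hf m.natAbs).neg
    refine h1.congr fun ω => ?_
    have : (m : ℚ) = -((m.natAbs : ℕ) : ℚ) := by
      conv_lhs => rw [h]
      simp
    rw [this]
    ring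

lemma Bd.sum (K : KK) (Z : Zok p z a Δ) {ι : Type} (s : Finset ι) (c : ι → ℤ) (F : ι → Ω → ℚ)
    {N : ℝ} (hN : 0 ≤ N) (hF : ∀ e ∈ s, Bd p z a Δ (F e) N) :
    Bd p z a Δ (fun ω => ∑ e ∈ s, (c e : ℚ) * F e ω)
      ((N + 5) * ((∑ e ∈ s, Nat.size (c e).natAbs : ℕ) : ℝ)) := by
  induction s using Finset.induction_on with
  | empty =>
    refine ((Bd.zero Z).congr fun ω => by simp).mono Z.Δ0 ?_
    simp
  | insert e s he ih =>
    have h1 := ih fun e' he' => hF e' (mem_insert_of_mem he')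
    by_cases hc : c e = 0
    · refine (h1.congr (g := fun ω => ∑ e ∈ insert e s, (c e : ℚ) * F e ω) fun ω => ?_).mono Z.Δ0 ?_
      · rw [Finset.sum_insert he, hc]
        simp
      · rw [Finset.sum_insert he, hc]
        simp
    · have h2 := Bd.int K Z hN (hF e (mem_insert_self e s)) (c e)
      have h3 := Bd.add K Z h2 h1
      refine (h3.congr (g := fun ω => ∑ e ∈ insert e s, (c e : ℚ) * F e ω) fun ω => ?_).mono Z.Δ0 ?_
      · rw [Finset.sum_insert he]
      · rw [Finset.sum_insert he]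
        push_cast
        have h4 : (1 : ℝ) ≤ Nat.size (c e).natAbs := by
          have : 0 < Nat.size (c e).natAbs := Nat.size_pos.2 (Int.natAbs_pos.2 hc)
          exact_mod_cast this
        nlinarith

end

end Pool.Agent.Helper20.RE
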