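import Pool.Agent.Helper20.RE.Stm

/-! # Patterns in sets of small Minkowski dimension: statements -/

set_option autoImplicit false

open Finset
open scoped Classical

namespace Pool.Agent.Helper20.RE

/-- For every `ρ ∈ [0,1]^n` the set `B` contains `x`, `x + ρ` and all `x + q_i ρ` for some `x`. -/
def Pat {n k : ℕ} (q : Fin k → ℚ) (B : Set (EuclideanSpace ℝ (Fin n))) : Prop :=
  ∀ ρ : EuclideanSpace ℝ (Fin n), (∀ i, ρ i ∈ Set.Icc (0 : ℝ) 1) →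
    ∃ x ∈ B, x + ρ ∈ B ∧ ∀ i, x + ((q i : ℚ) : ℝ) • ρ ∈ B

/-- Package PL: coverings of sets with the pattern. -/
def S_PL : Prop := ∀ (k : ℕ) (q : Fin k → ℚ), (∀ i, q i ≠ 0) → ∀ κ : ℝ, 0 < κ →
  Expo (fun i => 1 / q i - 1) κ → ∀ n : ℕ, ∃ c : ℝ, 0 < c ∧
    ∀ B : Set (EuclideanSpace ℝ (Fin n)), Pat q B → ∀ δ : ℝ, 0 < δ → δ ≤ 1 →
      ∀ P : Finset (EuclideanSpace ℝ (Fin n)), B ⊆ ⋃ x ∈ P, Metric.ball x δ →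
        c * δ ^ (-((n : ℝ) / κ)) ≤ P.card

/-- Package PU: small sets with the pattern. -/
def S_PU : Prop := ∀ (k : ℕ) (q : Fin k → ℚ), (∀ i, q i ≠ 0) → ∀ κ κ' : ℝ, 0 < κ' → κ' < κ →
  ¬ Expo (fun i => 1 / q i - 1) κ → ∀ n : ℕ, ∃ F : Set (EuclideanSpace ℝ (Fin n)), Pat q F ∧
    ∃ C : ℝ, 0 < C ∧ ∀ δ : ℝ, 0 < δ → δ ≤ 1 → ∃ Q : Finset (EuclideanSpace ℝ (Fin n)),
      (Q.card : ℝ) ≤ C * δ ^ (-((n : ℝ) / κ')) ∧ F ⊆ ⋃ y ∈ Q, Metric.ball y δ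

end Pool.Agent.Helper20.RE
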