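import Pool.Agent.Helper20.RE.Fin
import Pool.Agent.Helper20.RE.Stm3
import Pool.Graph.R_pool_sql_team_seeded_5cf16337.K3h53.AP.Port

/-!
# Minkowski dimensions of sets with a pattern
-/

set_option autoImplicit false
set_option linter.unusedSectionVars false

open Finset Filter Topology
open scoped Classical

namespace Pool.Agent.Helper20.RE

/-- The least number of sets of diameter at most `δ` covering `B` (for bounded `B`). -/
noncomputable def coverNum {n : ℕ} (B : Set (EuclideanSpace ℝ (Fin n))) (δ : ℝ) : ℕ :=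
  sInf {N | ∃ U : Fin N → Set (EuclideanSpace ℝ (Fin n)),
    (∀ i, ∀ x ∈ U i, ∀ y ∈ U i, dist x y ≤ δ) ∧ B ⊆ ⋃ i, U i}

/-- Upper Minkowski dimension. -/
noncomputable def upperMinkowski {n : ℕ} (B : Set (EuclideanSpace ℝ (Fin n))) : EReal :=
  limsup (fun δ : ℝ => ((Real.log (coverNum B δ) / Real.log (1 / δ) : ℝ) : EReal)) (𝓝[>] 0)

/-- Lower Minkowski dimension. -/
noncomputable def lowerMinkowski {n : ℕ} (B : Set (EuclideanSpace ℝ (Fin n))) : EReal :=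
  liminf (fun δ : ℝ => ((Real.log (coverNum B δ) / Real.log (1 / δ) : ℝ) : EReal)) (𝓝[>] 0)

/-- The infimum of the upper Minkowski dimensions of the bounded sets with the pattern. -/
noncomputable def fPat {k : ℕ} (n : ℕ) (q : Fin k → ℚ) : EReal :=
  ⨅ (B : Set (EuclideanSpace ℝ (Fin n))) (_ : Bornology.IsBounded B) (_ : Pat q B),
    upperMinkowski B

lemma coverNum_le {n : ℕ} {B : Set (EuclideanSpace ℝ (Fin n))} {δ : ℝ}
    {Q : Finset (EuclideanSpace ℝ (Fin n))} (h : B ⊆ ⋃ y ∈ Q, Metric.ball y (δ / 2)) :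
    coverNum B δ ≤ Q.card := by
  classical
  apply Nat.sInf_le
  refine ⟨fun i => Metric.ball ((Q.equivFin.symm i : Q) : EuclideanSpace ℝ (Fin n)) (δ / 2),
    fun i x hx y hy => ?_, fun x hx => ?_⟩
  · rw [Metric.mem_ball] at hx hy
    have := dist_triangle_right x y
      ((Q.equivFin.symm i : Q) : EuclideanSpace ℝ (Fin n))
    linarith
  · have := h hx
    simp only [Set.mem_iUnion] at this
    obtain ⟨y, hy, hxy⟩ := this
    rw [Set.mem_iUnion]
    refine ⟨Q.equivFin ⟨y, hy⟩, ?_⟩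
    simpa using hxy

lemma upper_le {n : ℕ} {B : Set (EuclideanSpace ℝ (Fin n))} {θ : ℝ} (hθ : 0 ≤ θ)
    (h : ∃ C : ℝ, 0 < C ∧ ∀ δ : ℝ, 0 < δ → δ ≤ 1 → ∃ Q : Finset (EuclideanSpace ℝ (Fin n)),
        (Q.card : ℝ) ≤ C * δ ^ (-θ) ∧ B ⊆ ⋃ y ∈ Q, Metric.ball y δ) :
    upperMinkowski B ≤ (θ : ℝ) := by
  obtain ⟨C, hC, hcov⟩ := h
  set C' : ℝ := C * 2 ^ θ + 1 with hC'
  have hC'1 : 1 ≤ C' := by
    have : 0 ≤ C * 2 ^ θ := by positivity
    linarith
  have hlim : Tendsto (fun δ : ℝ => Real.log C' / Real.log (1 / δ) + θ) (𝓝[>] 0) (𝓝 θ) := by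
    have h1 : Tendsto (fun δ : ℝ => Real.log (1 / δ)) (𝓝[>] 0) atTop := by
      have h2 : Tendsto (fun δ : ℝ => δ⁻¹) (𝓝[>] 0) atTop := tendsto_inv_nhdsGT_zero
      have h3 := Real.tendsto_log_atTop.comp h2
      refine h3.congr fun δ => ?_
      simp [Function.comp, one_div]
    have h4 := (h1.const_div_atTop (Real.log C')).add_const θ
    rw [zero_add] at h4
    exact h4
  have hlim2 : Tendsto (fun δ : ℝ => ((Real.log C' / Real.log (1 / δ) + θ : ℝ) : EReal))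
      (𝓝[>] 0) (𝓝 (θ : EReal)) :=
    (continuous_coe_real_ereal.tendsto θ).comp hlim
  rw [← hlim2.limsup_eq]
  refine limsup_le_limsup ?_
  have hmem : Set.Ioo (0 : ℝ) 1 ∈ 𝓝[>] (0 : ℝ) := Ioo_mem_nhdsGT one_pos
  filter_upwards [hmem] with δ hδ
  obtain ⟨h0, h1⟩ := hδ
  rw [EReal.coe_le_coe_iff]
  have hlog : 0 < Real.log (1 / δ) := Real.log_pos (by rw [lt_div_iff₀ h0]; linarith)
  obtain ⟨Q, hQ, hQB⟩ := hcov (δ / 2) (by linarith) (by linarith)
  have hN := coverNum_le hQB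
  have hNR : (coverNum B δ : ℝ) ≤ C' * δ ^ (-θ) := by
    have h5 : (coverNum B δ : ℝ) ≤ Q.card := by exact_mod_cast hN
    have h6 : (δ / 2) ^ (-θ) = 2 ^ θ * δ ^ (-θ) := by
      rw [Real.div_rpow h0.le (by norm_num), Real.rpow_neg (by norm_num : (0 : ℝ) ≤ 2),
        div_inv_eq_mul, mul_comm]
    rw [h6] at hQ
    have h7 : 0 < δ ^ (-θ) := Real.rpow_pos_of_pos h0 _
    calc (coverNum B δ : ℝ) ≤ C * (2 ^ θ * δ ^ (-θ)) := h5.trans hQ
      _ ≤ C' * δ ^ (-θ) := by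
          rw [hC', ← mul_assoc, add_mul]
          linarith
  rw [div_add' _ _ _ hlog.ne', div_le_div_iff_of_pos_right hlog]
  rcases Nat.eq_zero_or_pos (coverNum B δ) with h8 | h8
  · rw [h8]
    simp only [Nat.cast_zero, Real.log_zero]
    have := Real.log_nonneg hC'1
    positivity
  · calc Real.log (coverNum B δ) ≤ Real.log (C' * δ ^ (-θ)) :=
          Real.log_le_log (by exact_mod_cast h8) hNR
      _ = Real.log C' + θ * Real.log (1 / δ) := by
          rw [Real.log_mul (by positivity) (Real.rpow_pos_of_pos h0 _).ne', Real.log_rpow h0,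
            one_div, Real.log_inv]
          ring

lemma bounded_of_cover {n : ℕ} {B : Set (EuclideanSpace ℝ (Fin n))} {θ : ℝ}
    (h : ∃ C : ℝ, 0 < C ∧ ∀ δ : ℝ, 0 < δ → δ ≤ 1 → ∃ Q : Finset (EuclideanSpace ℝ (Fin n)),
        (Q.card : ℝ) ≤ C * δ ^ (-θ) ∧ B ⊆ ⋃ y ∈ Q, Metric.ball y δ) :
    Bornology.IsBounded B := by
  obtain ⟨C, -, hcov⟩ := h
  obtain ⟨Q, -, hQ⟩ := hcov 1 one_pos le_rfl
  exact ((Bornology.isBounded_biUnion_finset Q).2 fun _ _ => Metric.isBounded_ball).subset hQ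

lemma count (PL : S_PL) {k : ℕ} {q : Fin k → ℚ} (hq : ∀ i, q i ≠ 0) {κ : ℝ} (hκ : 0 < κ)
    (hE : Expo (fun i => 1 / q i - 1) κ) {n : ℕ} {B : Set (EuclideanSpace ℝ (Fin n))}
    (hB : Bornology.IsBounded B) (hP : Pat q B) :
    ∃ c : ℝ, 0 < c ∧ ∀ δ : ℝ, 0 < δ → c * δ ^ (-((n : ℝ) / κ)) ≤ (coverNum B δ : ℝ) := by
  obtain ⟨c, hc, h⟩ := PL k q hq κ hκ hE n
  have hθ : 0 ≤ (n : ℝ) / κ := by positivity
  set m : ℝ := 2 ^ (-((n : ℝ) / κ)) with hm
  have hm0 : 0 < m := by positivity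
  refine ⟨min c 1 * m, by positivity, fun δ hδ => ?_⟩
  have hmem : coverNum B δ ∈ {N | ∃ U : Fin N → Set (EuclideanSpace ℝ (Fin n)),
      (∀ i, ∀ x ∈ U i, ∀ y ∈ U i, dist x y ≤ δ) ∧ B ⊆ ⋃ i, U i} :=
    Nat.sInf_mem (Pool.Agent.W46.KK.cover_nonempty hB hδ)
  obtain ⟨U, hU1, hU2⟩ := hmem
  have hne : ∃ x, x ∈ B := by
    obtain ⟨x, hx, -⟩ := hP 0 (fun i => by simp)
    exact ⟨x, hx⟩
  obtain ⟨x₀, hx₀⟩ := hne
  have hN1 : (1 : ℝ) ≤ coverNum B δ := by
    have h1 := hU2 hx₀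
    rw [Set.mem_iUnion] at h1
    obtain ⟨i, -⟩ := h1
    have : 0 < coverNum B δ := i.pos
    exact_mod_cast this
  by_cases hδ2 : δ ≤ 1 / 2
  · choose! f hf using fun (i : Fin (coverNum B δ)) (hi : (U i).Nonempty) => hi
    have h1 := h B hP (2 * δ) (by linarith) (by linarith) (univ.image f) (by
      intro x hx
      have h2 := hU2 hx
      rw [Set.mem_iUnion] at h2
      obtain ⟨i, hi⟩ := h2
      simp only [Set.mem_iUnion]
      refine ⟨f i, mem_image_of_mem _ (mem_univ i), ?_⟩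
      rw [Metric.mem_ball]
      have := hU1 i x hi (f i) (hf i ⟨x, hi⟩)
      linarith)
    have h2 : ((univ.image f).card : ℝ) ≤ coverNum B δ := by
      have : (univ.image f).card ≤ coverNum B δ := by
        refine card_image_le.trans ?_
        rw [card_univ, Fintype.card_fin]
      exact_mod_cast this
    rw [Real.mul_rpow (by norm_num) hδ.le] at h1
    have h3 : 0 < δ ^ (-((n : ℝ) / κ)) := Real.rpow_pos_of_pos hδ _
    calc min c 1 * m * δ ^ (-((n : ℝ) / κ)) ≤ c * m * δ ^ (-((n : ℝ) / κ)) := by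
          apply mul_le_mul_of_nonneg_right _ h3.le
          exact mul_le_mul_of_nonneg_right (min_le_left _ _) hm0.le
      _ = c * (2 ^ (-((n : ℝ) / κ)) * δ ^ (-((n : ℝ) / κ))) := by rw [hm]; ring
      _ ≤ _ := h1.trans h2
  · push Not at hδ2
    have h3 : δ ^ (-((n : ℝ) / κ)) ≤ (1 / 2 : ℝ) ^ (-((n : ℝ) / κ)) :=
      Real.rpow_le_rpow_of_nonpos (by norm_num) hδ2.le (by linarith)
    have h4 : (1 / 2 : ℝ) ^ (-((n : ℝ) / κ)) = m⁻¹ := by
      rw [hm, one_div, Real.inv_rpow (by norm_num)]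
    rw [h4] at h3
    calc min c 1 * m * δ ^ (-((n : ℝ) / κ)) ≤ 1 * m * m⁻¹ := by
          apply mul_le_mul _ h3 (by positivity) (by positivity)
          exact mul_le_mul_of_nonneg_right (min_le_right _ _) hm0.le
      _ = 1 := by rw [one_mul, mul_inv_cancel₀ hm0.ne']
      _ ≤ _ := hN1

theorem lower_dim (PL : S_PL) {k : ℕ} {q : Fin k → ℚ} (hq : ∀ i, q i ≠ 0) {κ : ℝ} (hκ : 0 < κ)
    (hE : Expo (fun i => 1 / q i - 1) κ) {n : ℕ} {B : Set (EuclideanSpace ℝ (Fin n))}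
    (hB : Bornology.IsBounded B) (hP : Pat q B) :
    (((n : ℝ) / κ : ℝ) : EReal) ≤ lowerMinkowski B := by
  obtain ⟨c, hc, hcnt⟩ := count PL hq hκ hE hB hP
  refine le_of_forall_lt fun x hx => ?_
  obtain ⟨y, hxy, hy⟩ := EReal.lt_iff_exists_real_btwn.mp hx
  refine lt_of_lt_of_le hxy ?_
  have hy' : y < (n : ℝ) / κ := by exact_mod_cast hy
  exact le_liminf_of_le (by isBoundedDefault)
    (Pool.Agent.K3h53.AP.ev hc n (coverNum B) hcnt y hy')

lemma lower_le_upper {n : ℕ} (B : Set (EuclideanSpace ℝ (Fin n))) :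
    lowerMinkowski B ≤ upperMinkowski B :=
  liminf_le_limsup (by isBoundedDefault) (by isBoundedDefault)

theorem fPat_ge (PL : S_PL) {k : ℕ} {q : Fin k → ℚ} (hq : ∀ i, q i ≠ 0) {κ : ℝ} (hκ : 0 < κ)
    (hE : Expo (fun i => 1 / q i - 1) κ) (n : ℕ) : (((n : ℝ) / κ : ℝ) : EReal) ≤ fPat n q :=
  le_iInf fun B => le_iInf fun hB => le_iInf fun hP =>
    (lower_dim PL hq hκ hE hB hP).trans (lower_le_upper B)

theorem fPat_le (PU : S_PU) {k : ℕ} {q : Fin k → ℚ} (hq : ∀ i, q i ≠ 0) {κ : ℝ} (hκ : 0 < κ)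
    (hE : ∀ κ₁ : ℝ, κ₁ < κ → ¬ Expo (fun i => 1 / q i - 1) κ₁) (n : ℕ) :
    fPat n q ≤ (((n : ℝ) / κ : ℝ) : EReal) := by
  refine le_of_forall_gt fun x hx => ?_
  obtain ⟨y, hy, hyx⟩ := EReal.lt_iff_exists_real_btwn.mp hx
  refine lt_of_le_of_lt ?_ hyx
  have hy' : (n : ℝ) / κ < y := by exact_mod_cast hy
  -- a smaller exponent
  obtain ⟨κ', h0, h1, h2⟩ : ∃ κ' : ℝ, 0 < κ' ∧ κ' < κ ∧ (n : ℝ) / κ' ≤ y := by
    have hy0 : 0 < y := lt_of_le_of_lt (by positivity) hy'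
    have h3 : (n : ℝ) / y < κ := by
      rw [div_lt_iff₀ hκ] at hy'
      rw [div_lt_iff₀ hy0]
      linarith
    refine ⟨max (n / y) (κ / 2), lt_max_of_lt_right (by linarith), max_lt h3 (by linarith), ?_⟩
    rw [div_le_iff₀ (lt_max_of_lt_right (by linarith))]
    have h4 : (n : ℝ) = y * (n / y) := by field_simp
    calc (n : ℝ) = y * (n / y) := h4
      _ ≤ y * max (n / y) (κ / 2) := mul_le_mul_of_nonneg_left (le_max_left _ _) hy0.le
  obtain ⟨F, hF, hcov⟩ := PU k q hq ((κ' + κ) / 2) κ' h0 (by linarith) (hE _ (by linarith)) n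
  have h3 : fPat n q ≤ upperMinkowski F := by
    unfold fPat
    exact (iInf_le _ F).trans ((iInf_le _ (bounded_of_cover hcov)).trans (iInf_le _ hF))
  have h4 : upperMinkowski F ≤ (((n : ℝ) / κ' : ℝ) : EReal) := upper_le (by positivity) hcov
  refine (h3.trans h4).trans ?_
  exact_mod_cast h2

end Pool.Agent.Helper20.RE
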