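import Pool.Agent.Helper20.RE.N

/-!
# From the sums `x + r_i y` to `x - y`: monomials
-/

set_option autoImplicit false
set_option linter.unusedSectionVars false

open Finset
open scoped Classical

namespace Pool.Agent.Helper20.RE
open Pool.Agent.W904.AK

section
variable {Ω : Type} [Fintype Ω] {p : Ω → ℝ} {k : ℕ} {r : Fin k → ℚ} {x y : Ω → ℚ} {Δ : ℝ}

/-- The data. -/
structure Dat (p : Ω → ℝ) (r : Fin k → ℚ) (x y : Ω → ℚ) (Δ : ℝ) : Prop where
  law : IsLaw p
  hr : ∀ i, r i ≠ 0
  hd : ∀ i, 2 * hh p x p (fun ω => r i * y ω) - H p x - H p y ≤ Δ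
  k0 : Nonempty (Fin k)

lemma Dat.Δ0 (K : KK) (D : Dat p r x y Δ) : 0 ≤ Δ := by
  obtain ⟨i⟩ := D.k0
  have h1 := K.mon Ω Ω p x p (fun ω => r i * y ω) D.law D.law
  rw [H_smul p y (D.hr i)] at h1
  have := D.hd i
  linarith [h1.1, h1.2]

lemma Dat.V_le (K : KK) (D : Dat p r x y Δ) (i : Fin k) :
    hh p x p (fun ω => r i * y ω) ≤ H p x + Δ := by
  have h1 := K.mon Ω Ω p x p (fun ω => r i * y ω) D.law D.law
  rw [H_smul p y (D.hr i)] at h1
  have := D.hd i
  linarith [h1.1, h1.2]

/-- `c r_i x - c r_j x'`. -/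
lemma Dat.m1 (K : KK) (D : Dat p r x y Δ) (i j : Fin k) {c : ℚ} (hc : c ≠ 0) :
    hh p (fun ω => c * r i * x ω) p (fun ω => -(c * r j * x ω)) ≤ H p x + Δ := by
  have h1 := K.tri3 Ω Ω Ω p (fun ω => c * r i * x ω) p (fun ω => c * r j * x ω) p
    (fun ω => -(c * r i * r j * y ω)) D.law D.law D.law
  have e1 : hh p (fun ω => c * r i * x ω) p (fun ω => -(-(c * r i * r j * y ω))) =
      hh p x p (fun ω => r j * y ω) := by
    rw [← K.smul Ω Ω p x p (fun ω => r j * y ω) (c * r i) (mul_ne_zero hc (D.hr i))]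
    exact hh_congr (fun _ => by ring) (fun _ => by ring)
  have e2 : hh p (fun ω => c * r j * x ω) p (fun ω => -(-(c * r i * r j * y ω))) =
      hh p x p (fun ω => r i * y ω) := by
    rw [← K.smul Ω Ω p x p (fun ω => r i * y ω) (c * r j) (mul_ne_zero hc (D.hr j))]
    exact hh_congr (fun _ => by ring) (fun _ => by ring)
  have e3 : H p (fun ω => -(c * r i * r j * y ω)) = H p y := by
    rw [H_neg, H_smul p y (mul_ne_zero (mul_ne_zero hc (D.hr i)) (D.hr j))]
  rw [e1, e2, e3] at h1
  have h2 := D.hd i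
  have h3 := D.hd j
  linarith

lemma Dat.m1' (K : KK) (D : Dat p r x y Δ) {c : ℚ} (hc : c ≠ 0) :
    hh p (fun ω => c * x ω) p (fun ω => -(c * x ω)) ≤ H p x + Δ := by
  obtain ⟨i⟩ := D.k0
  have h1 := D.m1 K i i (c := c / r i) (div_ne_zero hc (D.hr i))
  rw [div_mul_cancel₀ _ (D.hr i)] at h1
  exact h1

lemma Dat.m3 (K : KK) (D : Dat p r x y Δ) {c : ℚ} (hc : c ≠ 0) :
    hh p (fun ω => c * x ω) p (fun ω => c * x ω) ≤ H p x + Δ := by
  obtain ⟨i⟩ := D.k0
  have h1 := K.sum2 Ω Ω p (fun ω => c * x ω) p (fun ω => c * (r i * y ω)) D.law D.law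
  rw [K.smul Ω Ω p x p (fun ω => r i * y ω) c hc, H_smul p (fun ω => r i * y ω) hc,
    H_smul p y (D.hr i)] at h1
  have h2 := D.hd i
  linarith

lemma prod_ne (D : Dat p r x y Δ) (l : List (Fin k)) : (l.map r).prod ≠ 0 := by
  apply List.prod_ne_zero
  intro h
  rw [List.mem_map] at h
  obtain ⟨i, -, hi⟩ := h
  exact D.hr i hi

lemma Dat.m2 (K : KK) (D : Dat p r x y Δ) (l : List (Fin k)) :
    ∀ (l' : List (Fin k)), l.length = l'.length → ∀ c : ℚ, c ≠ 0 →
    hh p (fun ω => c * (l.map r).prod * x ω) p (fun ω => -(c * (l'.map r).prod * x ω)) ≤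
      H p x + (l.length + 1) * Δ := by
  induction l with
  | nil =>
    intro l' hl c hc
    have hl' : l' = [] := List.eq_nil_of_length_eq_zero (by simpa using hl.symm)
    subst hl'
    have h1 := D.m1' K hc
    simpa using h1
  | cons i l ih =>
    intro l' hl c hc
    cases l' with
    | nil => simp at hl
    | cons j l' =>
      have hl2 : l.length = l'.length := by simpa using hl
      have h1 := ih l' hl2 (c * r i) (mul_ne_zero hc (D.hr i))
      have h2 := D.m1 K j i (c := c * (l'.map r).prod) (mul_ne_zero hc (prod_ne D l'))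
      have h3 := K.tri3 Ω Ω Ω p (fun ω => c * ((i :: l).map r).prod * x ω) p
        (fun ω => c * ((j :: l').map r).prod * x ω) p (fun ω => c * r i * (l'.map r).prod * x ω)
        D.law D.law D.law
      have e1 : hh p (fun ω => c * ((i :: l).map r).prod * x ω) p
          (fun ω => -(c * r i * (l'.map r).prod * x ω)) =
          hh p (fun ω => c * r i * (l.map r).prod * x ω) p
          (fun ω => -(c * r i * (l'.map r).prod * x ω)) :=
        hh_congr (fun _ => by rw [List.map_cons, List.prod_cons]; ring) (fun _ => rfl)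
      have e2 : hh p (fun ω => c * ((j :: l').map r).prod * x ω) p
          (fun ω => -(c * r i * (l'.map r).prod * x ω)) =
          hh p (fun ω => c * (l'.map r).prod * r j * x ω) p
          (fun ω => -(c * (l'.map r).prod * r i * x ω)) :=
        hh_congr (fun _ => by rw [List.map_cons, List.prod_cons]; ring) (fun _ => by ring)
      have e3 : H p (fun ω => c * r i * (l'.map r).prod * x ω) = H p x :=
        H_smul p x (mul_ne_zero (mul_ne_zero hc (D.hr i)) (prod_ne D l'))
      rw [e1, e2, e3] at h3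
      rw [List.length_cons]
      push_cast
      linarith

variable (l₀ : List (Fin k))

lemma Dat.zok (K : KK) (D : Dat p r x y Δ) :
    Zok p (fun ω => (l₀.map r).prod * x ω) (H p x) Δ :=
  ⟨D.law, D.Δ0 K, H_smul p x (prod_ne D l₀), D.m1' K (prod_ne D l₀), D.m3 K (prod_ne D l₀)⟩

lemma Dat.bx (K : KK) (D : Dat p r x y Δ) (l : List (Fin k)) (hl : l.length = l₀.length) :
    Bd p (fun ω => (l₀.map r).prod * x ω) (H p x) Δ (fun ω => (l.map r).prod * x ω)
      (l₀.length + 2) := by
  have h0 := D.Δ0 K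
  have h1 := D.m2 K l l₀ hl 1 one_ne_zero
  have e1 : hh p (fun ω => 1 * (l.map r).prod * x ω) p (fun ω => -(1 * (l₀.map r).prod * x ω)) =
      hh p (fun ω => (l.map r).prod * x ω) p (fun ω => -((l₀.map r).prod * x ω)) :=
    hh_congr (fun _ => by ring) (fun _ => by ring)
  rw [e1, hl] at h1
  refine ⟨by linarith, ?_⟩
  have h2 := K.tri3 Ω Ω Ω p (fun ω => -((l.map r).prod * x ω)) p
    (fun ω => (l₀.map r).prod * x ω) p (fun ω => -((l₀.map r).prod * x ω)) D.law D.law D.law
  have e2 : hh p (fun ω => -((l.map r).prod * x ω)) p (fun ω => -(-((l₀.map r).prod * x ω))) =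
      hh p (fun ω => (l.map r).prod * x ω) p (fun ω => -((l₀.map r).prod * x ω)) :=
    hh_neg K p (fun ω => (l.map r).prod * x ω) p (fun ω => -((l₀.map r).prod * x ω))
  have e3 : hh p (fun ω => (l₀.map r).prod * x ω) p (fun ω => -(-((l₀.map r).prod * x ω))) =
      hh p (fun ω => (l₀.map r).prod * x ω) p (fun ω => (l₀.map r).prod * x ω) :=
    hh_congr (fun _ => rfl) (fun _ => by ring)
  have h3 := D.m3 K (prod_ne D l₀)
  rw [e2, e3, H_neg, H_smul p x (prod_ne D l₀)] at h2
  linarith

lemma Dat.by' (K : KK) (D : Dat p r x y Δ) (i : Fin k) (l : List (Fin k))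
    (hl : l.length = l₀.length) :
    Bd p (fun ω => (l₀.map r).prod * x ω) (H p x) Δ (fun ω => ((i :: l).map r).prod * y ω)
      (l₀.length + 3) := by
  have h0 := D.Δ0 K
  have hV := D.V_le K i
  have hx := D.bx l₀ K l hl
  have h1 := D.m2 K l₀ l hl.symm 1 one_ne_zero
  have e1 : hh p (fun ω => 1 * (l₀.map r).prod * x ω) p (fun ω => -(1 * (l.map r).prod * x ω)) =
      hh p (fun ω => (l₀.map r).prod * x ω) p (fun ω => -((l.map r).prod * x ω)) :=
    hh_congr (fun _ => by ring) (fun _ => by ring)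
  rw [e1] at h1
  have eV : hh p (fun ω => ((i :: l).map r).prod * y ω) p (fun ω => (l.map r).prod * x ω) =
      hh p x p (fun ω => r i * y ω) := by
    rw [K.comm Ω Ω p _ p _ D.law D.law,
      ← K.smul Ω Ω p x p (fun ω => r i * y ω) (l.map r).prod (prod_ne D l)]
    exact hh_congr (fun _ => rfl) (fun _ => by rw [List.map_cons, List.prod_cons]; ring)
  refine ⟨?_, ?_⟩
  · have h2 := K.tri3 Ω Ω Ω p (fun ω => ((i :: l).map r).prod * y ω) p
      (fun ω => (l₀.map r).prod * x ω) p (fun ω => -((l.map r).prod * x ω)) D.law D.law D.law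
    have e2 : hh p (fun ω => ((i :: l).map r).prod * y ω) p
        (fun ω => -(-((l.map r).prod * x ω))) = hh p x p (fun ω => r i * y ω) := by
      rw [← eV]
      exact hh_congr (fun _ => rfl) (fun _ => by ring)
    have e3 : hh p (fun ω => (l₀.map r).prod * x ω) p (fun ω => -(-((l.map r).prod * x ω))) =
        hh p (fun ω => -((l.map r).prod * x ω)) p (fun ω => -((l₀.map r).prod * x ω)) := by
      rw [hh_neg K p (fun ω => (l.map r).prod * x ω) p (fun ω => (l₀.map r).prod * x ω),
        K.comm Ω Ω p (fun ω => (l.map r).prod * x ω) p (fun ω => (l₀.map r).prod * x ω)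
          D.law D.law]
      exact hh_congr (fun _ => rfl) (fun _ => by ring)
    rw [e2, e3, H_neg, H_smul p x (prod_ne D l)] at h2
    have := hx.2
    linarith
  · have h2 := K.tri3 Ω Ω Ω p (fun ω => -(((i :: l).map r).prod * y ω)) p
      (fun ω => (l₀.map r).prod * x ω) p (fun ω => (l.map r).prod * x ω) D.law D.law D.law
    have e2 : hh p (fun ω => -(((i :: l).map r).prod * y ω)) p
        (fun ω => -((l.map r).prod * x ω)) = hh p x p (fun ω => r i * y ω) := by
      rw [← eV]
      exact hh_neg K p (fun ω => ((i :: l).map r).prod * y ω) p (fun ω => (l.map r).prod * x ω)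
    rw [e2, H_smul p x (prod_ne D l)] at h2
    linarith

end

/-- Monomials as products of lists. -/
lemma exists_list {k : ℕ} (r : Fin k → ℚ) (e : Fin k → ℕ) (s : Finset (Fin k)) :
    ∃ l : List (Fin k), l.length = ∑ i ∈ s, e i ∧ (l.map r).prod = ∏ i ∈ s, r i ^ e i := by
  induction s using Finset.induction_on with
  | empty => exact ⟨[], by simp, by simp⟩
  | insert i s hi ih =>
    obtain ⟨l, h1, h2⟩ := ih
    refine ⟨List.replicate (e i) i ++ l, ?_, ?_⟩
    · rw [List.length_append, List.length_replicate, h1, Finset.sum_insert hi]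
    · rw [List.map_append, List.prod_append, List.map_replicate, List.prod_replicate, h2,
        Finset.prod_insert hi]

theorem s2 (K : KK) : S_S2 := by
  intro k r hr d A B hAB hA0 Ω _ p x y hp
  set Δ : ℝ := ∑ i, (2 * hh p x p (fun ω => r i * y ω) - H p x - H p y) with hΔ
  have hterm : ∀ i, 0 ≤ 2 * hh p x p (fun ω => r i * y ω) - H p x - H p y := by
    intro i
    have h1 := K.mon Ω Ω p x p (fun ω => r i * y ω) hp hp
    rw [H_smul p y (hr i)] at h1
    linarith [h1.1, h1.2]
  -- there is an index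
  have hk : Nonempty (Fin k) := by
    by_contra h
    rw [not_nonempty_iff] at h
    apply hA0
    rw [hAB]
    unfold form
    refine Finset.sum_eq_zero fun e he => ?_
    rw [Finset.Nat.mem_antidiagonalTuple] at he
    have : ∑ i, e i = 0 := Finset.sum_of_isEmpty _
    omega
  have D : Dat p r x y Δ := ⟨hp, hr, fun i => Finset.single_le_sum (f := fun i =>
    2 * hh p x p (fun ω => r i * y ω) - H p x - H p y) (fun i _ => hterm i) (mem_univ i), hk⟩
  obtain ⟨i₀⟩ := hk
  set l₀ : List (Fin k) := List.replicate d i₀ with hl₀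
  have hlen : l₀.length = d := by rw [hl₀, List.length_replicate]
  have Z := D.zok l₀ K
  have hU := Bd.sum K Z (Finset.Nat.antidiagonalTuple k d) A
    (fun e ω => (∏ i, r i ^ e i) * x ω) (N := d + 2) (by positivity) (fun e he => by
      rw [Finset.Nat.mem_antidiagonalTuple] at he
      obtain ⟨l, h1, h2⟩ := exists_list r e univ
      have h3 := D.bx l₀ K l (by rw [h1, he, hlen])
      rw [hlen, h2] at h3
      exact h3)
  have hV := Bd.sum K Z (Finset.Nat.antidiagonalTuple k (d + 1)) B
    (fun e ω => (∏ i, r i ^ e i) * y ω) (N := d + 3) (by positivity) (fun e he => by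
      rw [Finset.Nat.mem_antidiagonalTuple] at he
      obtain ⟨l, h1, h2⟩ := exists_list r e univ
      rw [he] at h1
      cases l with
      | nil => simp at h1
      | cons i l =>
        have h3 := D.by' l₀ K i l (by rw [hlen]; simpa using h1)
        rw [hlen, h2] at h3
        exact h3)
  have h1 := K.tri Ω Ω p _ _ p (fun ω => (l₀.map r).prod * x ω) hp hp |>.trans
    (add_le_add hU.1 hV.1)
  rw [H_smul p x (prod_ne D l₀)] at h1
  have e1 : H p (fun ω => ∑ e ∈ Finset.Nat.antidiagonalTuple k d, (A e : ℚ) *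
      ((∏ i, r i ^ e i) * x ω) - ∑ e ∈ Finset.Nat.antidiagonalTuple k (d + 1), (B e : ℚ) *
      ((∏ i, r i ^ e i) * y ω)) = H p (fun ω => x ω - y ω) := by
    rw [← H_smul p (fun ω => x ω - y ω) hA0]
    congr 1
    funext ω
    rw [mul_sub]
    congr 1
    · unfold form
      rw [Finset.sum_mul]
      exact Finset.sum_congr rfl fun e _ => by ring
    · rw [hAB]
      unfold form
      rw [Finset.sum_mul]
      exact Finset.sum_congr rfl fun e _ => by ring
  rw [e1] at h1
  have hΔ0 := D.Δ0 K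
  have e2 : (((d + 8) * (len d A + len (d + 1) B) : ℕ) : ℝ) =
      ((d : ℝ) + 8) * (len d A : ℝ) + (d + 8) * (len (d + 1) B : ℝ) := by
    push_cast
    ring
  rw [e2]
  have h2 : ((d : ℝ) + 2 + 5) * (len d A : ℝ) * Δ ≤ ((d : ℝ) + 8) * (len d A : ℝ) * Δ := by
    apply mul_le_mul_of_nonneg_right _ hΔ0
    apply mul_le_mul_of_nonneg_right _ (Nat.cast_nonneg _)
    linarith
  have h3 : ((d : ℝ) + 3 + 5) * (len (d + 1) B : ℝ) * Δ = ((d : ℝ) + 8) * (len (d + 1) B : ℝ) * Δ := by
    ring
  unfold len at h2 h3 ⊢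
  linarith

end Pool.Agent.Helper20.RE
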