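import Pool.Agent.Helper20.RE.Stm

/-! # The explicit form of package L -/

set_option autoImplicit false

open Finset
open scoped Classical

namespace Pool.Agent.Helper20.RE

/-- Explicit form of `S_L`: degrees at most `D` and coefficients at most `2 ^ D`, where `D` is at least
`t log t`, `t = 8 (k + 1) / δ`. -/
def S_L2 : Prop := ∀ k : ℕ, 0 < k → ∀ δ : ℝ, 0 < δ → δ ≤ 1 → ∀ D : ℕ,
  8 * (k + 1) / δ * Real.log (8 * (k + 1) / δ) ≤ D → ∀ r : Fin k → ℚ, (∀ i, r i ≠ 0) →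
  Expo r (2 - δ) → ∃ d ≤ D, ∃ a b : (Fin k → ℕ) → ℤ, (∀ e, |a e| ≤ 2 ^ D) ∧ (∀ e, |b e| ≤ 2 ^ D) ∧
    form r d a = form r (d + 1) b ∧ form r d a ≠ 0

end Pool.Agent.Helper20.RE
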