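import Pool.Agent.Helper20.RE.PatFin

/-!
# Some terms of a progression
-/

set_option autoImplicit false
set_option linter.unusedSectionVars false

open Finset Filter Topology
open scoped Classical

namespace Pool.Agent.Helper20.RE

/-- For every `ρ ∈ [0,1]^n` the set `B` contains the terms with the numbers `0`, `N` and `t_i` of a
progression with the common difference `ρ`. -/
def HasTerms {n k : ℕ} (N : ℕ) (t : Fin k → ℕ) (B : Set (EuclideanSpace ℝ (Fin n))) : Prop :=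
  ∀ ρ : EuclideanSpace ℝ (Fin n), (∀ i, ρ i ∈ Set.Icc (0 : ℝ) 1) →
    ∃ x ∈ B, x + (N : ℝ) • ρ ∈ B ∧ ∀ i, x + (t i : ℝ) • ρ ∈ B

/-- The infimum of the upper Minkowski dimensions of the bounded sets which contain these terms. -/
noncomputable def fT {k : ℕ} (n N : ℕ) (t : Fin k → ℕ) : EReal :=
  ⨅ (B : Set (EuclideanSpace ℝ (Fin n))) (_ : Bornology.IsBounded B) (_ : HasTerms N t B),
    upperMinkowski B

/-- The slopes. -/
def rat {k : ℕ} (N : ℕ) (t : Fin k → ℕ) (i : Fin k) : ℚ := ((N : ℚ) - t i) / t i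

section
variable {n k N : ℕ} {t : Fin k → ℕ}

lemma rat_eq (hN : 0 < N) (ht : ∀ i, 0 < t i) :
    (fun i => 1 / ((t i : ℚ) / N) - 1) = rat N t := by
  funext i
  have h1 : (t i : ℚ) ≠ 0 := by exact_mod_cast (ht i).ne'
  have h2 : (N : ℚ) ≠ 0 := by exact_mod_cast hN.ne'
  unfold rat
  field_simp

lemma rat_ne (ht : ∀ i, 0 < t i ∧ t i < N) (i : Fin k) : rat N t i ≠ 0 := by
  unfold rat
  have h1 : (t i : ℚ) ≠ 0 := by exact_mod_cast (ht i).1.ne'
  have h2 : (t i : ℚ) < N := by exact_mod_cast (ht i).2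
  exact div_ne_zero (by linarith [sub_pos.2 h2] : (N : ℚ) - t i ≠ 0) h1

lemma pat_of_terms (hN : 0 < N) {B : Set (EuclideanSpace ℝ (Fin n))} (h : HasTerms N t B) :
    Pat (fun i => (t i : ℚ) / N) B := by
  intro ρ hρ
  have hN' : (0 : ℝ) < N := by exact_mod_cast hN
  have hN1 : (1 : ℝ) ≤ N := by exact_mod_cast hN
  obtain ⟨x, hx, h1, h2⟩ := h ((1 / (N : ℝ)) • ρ) (fun i => by
    have := hρ i
    rw [PiLp.smul_apply, smul_eq_mul]
    constructor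
    · have h3 := this.1
      positivity
    · calc 1 / (N : ℝ) * ρ i ≤ 1 * 1 :=
            mul_le_mul ((div_le_one hN').2 hN1) this.2 this.1 zero_le_one
        _ = 1 := one_mul 1)
  refine ⟨x, hx, ?_, fun i => ?_⟩
  · rw [smul_smul, mul_one_div_cancel hN'.ne', one_smul] at h1
    exact h1
  · have h3 := h2 i
    rw [smul_smul] at h3
    have e : (((t i : ℚ) / N : ℚ) : ℝ) = (t i : ℝ) * (1 / N) := by
      push_cast
      ring
    rw [e]
    exact h3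

theorem terms_lower (PL : S_PL) (hN : 0 < N) (ht : ∀ i, 0 < t i) {κ : ℝ} (hκ : 0 < κ)
    (hE : Expo (rat N t) κ) {B : Set (EuclideanSpace ℝ (Fin n))} (hB : Bornology.IsBounded B)
    (hP : HasTerms N t B) : (((n : ℝ) / κ : ℝ) : EReal) ≤ lowerMinkowski B := by
  refine lower_dim PL (q := fun i => (t i : ℚ) / N) (fun i => ?_) hκ ?_ hB (pat_of_terms hN hP)
  · have h1 : (t i : ℚ) ≠ 0 := by exact_mod_cast (ht i).ne'
    have h2 : (N : ℚ) ≠ 0 := by exact_mod_cast hN.ne'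
    exact div_ne_zero h1 h2
  · rw [rat_eq hN ht]
    exact hE

theorem fT_ge (PL : S_PL) (hN : 0 < N) (ht : ∀ i, 0 < t i) {κ : ℝ} (hκ : 0 < κ)
    (hE : Expo (rat N t) κ) : (((n : ℝ) / κ : ℝ) : EReal) ≤ fT n N t :=
  le_iInf fun _ => le_iInf fun hB => le_iInf fun hP =>
    (terms_lower PL hN ht hκ hE hB hP).trans (lower_le_upper _)

lemma terms_of_pat (hN : 0 < N) {F : Set (EuclideanSpace ℝ (Fin n))}
    (h : Pat (fun i => (t i : ℚ) / N) F) :
    HasTerms N t ((fun x : EuclideanSpace ℝ (Fin n) => (N : ℝ) • x) '' F) := by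
  intro ρ hρ
  have hN' : (N : ℝ) ≠ 0 := by exact_mod_cast hN.ne'
  obtain ⟨x, hx, h1, h2⟩ := h ρ hρ
  refine ⟨(N : ℝ) • x, ⟨x, hx, rfl⟩, ⟨x + ρ, h1, by simp [smul_add]⟩, fun i => ⟨_, h2 i, ?_⟩⟩
  simp only [smul_add, smul_smul]
  congr 2
  push_cast
  field_simp

lemma cover_scale (hN : 0 < N) {F : Set (EuclideanSpace ℝ (Fin n))} {θ : ℝ} (hθ : 0 ≤ θ)
    (h : ∃ C : ℝ, 0 < C ∧ ∀ δ : ℝ, 0 < δ → δ ≤ 1 → ∃ Q : Finset (EuclideanSpace ℝ (Fin n)),
        (Q.card : ℝ) ≤ C * δ ^ (-θ) ∧ F ⊆ ⋃ y ∈ Q, Metric.ball y δ) :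
    ∃ C : ℝ, 0 < C ∧ ∀ δ : ℝ, 0 < δ → δ ≤ 1 → ∃ Q : Finset (EuclideanSpace ℝ (Fin n)),
        (Q.card : ℝ) ≤ C * δ ^ (-θ) ∧
          ((fun x : EuclideanSpace ℝ (Fin n) => (N : ℝ) • x) '' F) ⊆ ⋃ y ∈ Q, Metric.ball y δ := by
  obtain ⟨C, hC, hcov⟩ := h
  have hN' : (0 : ℝ) < N := by exact_mod_cast hN
  have hN1 : (1 : ℝ) ≤ N := by exact_mod_cast hN
  refine ⟨C * N ^ θ, by positivity, fun δ h0 h1 => ?_⟩
  obtain ⟨Q, hQ, hF⟩ := hcov (δ / N) (by positivity) (by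
    rw [div_le_one hN']
    linarith)
  refine ⟨Q.image fun x => (N : ℝ) • x, ?_, ?_⟩
  · have h2 : ((Q.image fun x : EuclideanSpace ℝ (Fin n) => (N : ℝ) • x).card : ℝ) ≤ Q.card := by
      exact_mod_cast card_image_le
    have h3 : (δ / N) ^ (-θ) = N ^ θ * δ ^ (-θ) := by
      rw [Real.div_rpow h0.le hN'.le, Real.rpow_neg hN'.le, div_inv_eq_mul, mul_comm]
    rw [h3] at hQ
    calc _ ≤ (Q.card : ℝ) := h2
      _ ≤ C * (N ^ θ * δ ^ (-θ)) := hQ
      _ = C * N ^ θ * δ ^ (-θ) := by ring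
  · rintro _ ⟨x, hx, rfl⟩
    have h2 := hF hx
    simp only [Set.mem_iUnion] at h2 ⊢
    obtain ⟨y, hy, hxy⟩ := h2
    refine ⟨(N : ℝ) • y, mem_image_of_mem _ hy, ?_⟩
    rw [Metric.mem_ball] at hxy ⊢
    rw [dist_smul₀, Real.norm_eq_abs, abs_of_pos hN']
    rw [lt_div_iff₀ hN'] at hxy
    linarith

theorem fT_le (PU : S_PU) (hN : 0 < N) (ht : ∀ i, 0 < t i) {κ : ℝ} (hκ : 0 < κ)
    (hE : ∀ κ₁ : ℝ, κ₁ < κ → ¬ Expo (rat N t) κ₁) :
    fT n N t ≤ (((n : ℝ) / κ : ℝ) : EReal) := by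
  refine le_of_forall_gt fun x hx => ?_
  obtain ⟨y, hy, hyx⟩ := EReal.lt_iff_exists_real_btwn.mp hx
  refine lt_of_le_of_lt ?_ hyx
  have hy' : (n : ℝ) / κ < y := by exact_mod_cast hy
  obtain ⟨κ', h0, h1, h2⟩ : ∃ κ' : ℝ, 0 < κ' ∧ κ' < κ ∧ (n : ℝ) / κ' ≤ y := by
    have hy0 : 0 < y := lt_of_le_of_lt (by positivity) hy'
    have h3 : (n : ℝ) / y < κ := by
      rw [div_lt_iff₀ hκ] at hy'
      rw [div_lt_iff₀ hy0]
      linarith
    refine ⟨max (n / y) (κ / 2), lt_max_of_lt_right (by linarith), max_lt h3 (by linarith), ?_⟩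
    rw [div_le_iff₀ (lt_max_of_lt_right (by linarith))]
    have h4 : (n : ℝ) = y * (n / y) := by field_simp
    calc (n : ℝ) = y * (n / y) := h4
      _ ≤ y * max (n / y) (κ / 2) := mul_le_mul_of_nonneg_left (le_max_left _ _) hy0.le
  have hq : ∀ i, (t i : ℚ) / N ≠ 0 := fun i => by
    have h1 : (t i : ℚ) ≠ 0 := by exact_mod_cast (ht i).ne'
    have h2 : (N : ℚ) ≠ 0 := by exact_mod_cast hN.ne'
    exact div_ne_zero h1 h2
  obtain ⟨F, hF, hcov⟩ := PU k (fun i => (t i : ℚ) / N) hq ((κ' + κ) / 2) κ' h0 (by linarith) (by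
    rw [rat_eq hN ht]
    exact hE _ (by linarith)) n
  have hcov' := cover_scale hN (by positivity) hcov
  have h3 : fT n N t ≤ upperMinkowski ((fun x : EuclideanSpace ℝ (Fin n) => (N : ℝ) • x) '' F) := by
    unfold fT
    exact (iInf_le _ _).trans ((iInf_le _ (bounded_of_cover hcov')).trans
      (iInf_le _ (terms_of_pat hN hF)))
  have h4 := upper_le (by positivity) hcov'
  refine (h3.trans h4).trans ?_
  exact_mod_cast h2

end

end Pool.Agent.Helper20.RE
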